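import Pool.Agent.Lib.MP_ad286f_nt.FinalC
import Pool.Agent.Lib.MP_ad286f_nt.Rep

/-!
# The congruence for `Z_p(32)` modulo `p^2`: all three statements, for every prime `p > 3`
-/

namespace Pool.Agent.Results.MP_ad286f_nt.FullAnswer

/-- The Franel number `f_n`, the sum of the cubes of the binomial coefficients `C(n,k)`. -/
def franel (n : ℕ) : ℕ := ∑ k ∈ Finset.range (n + 1), (n.choose k) ^ 3

/-- `Z_p(m)`, the sum over `0 <= n <= p - 1` of `C(2n,n) f_n m^(-n)`, a rational number. -/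
def Z (p : ℕ) (m : ℤ) : ℚ :=
  ∑ n ∈ Finset.range p, (((2 * n).choose n : ℕ) : ℚ) * (franel n : ℚ) / (m : ℚ) ^ n

/-- `x` and `y` are congruent modulo `p^2` in the ring of the rational numbers whose denominator
is prime to `p`: the difference is `p^2 r` with such a number `r`. -/
def CongrModSq (p : ℕ) (x y : ℚ) : Prop := ∃ r : ℚ, ¬ p ∣ r.den ∧ x - y = (p : ℚ) ^ 2 * r

private theorem conv {p : ℕ} {x y : ℚ} (h : Pool.Agent.Lib.Z32.ModP2 p x y) :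
    CongrModSq p x y := by
  obtain ⟨u, v, hv, h1⟩ := h
  refine ⟨(u : ℚ) / v, fun hd => hv ?_, h1⟩
  have h2 : ((((u : ℚ) / v : ℚ).den : ℕ) : ℤ) ∣ v := by
    have h3 := Rat.den_dvd u v
    rwa [Rat.divInt_eq_div] at h3
  exact (Int.natCast_dvd_natCast.mpr hd).trans h2

private theorem Z_eq (p : ℕ) :
    Z p 32 = ∑ n ∈ Finset.range p, (Pool.Agent.Lib.Z32.aa n : ℚ) / 32 ^ n := by
  unfold Z
  apply Finset.sum_congr rfl
  intro n _
  simp only [Pool.Agent.Lib.Z32.aa, Pool.Agent.Lib.Z32.fr, franel]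
  push_cast
  rfl

theorem result : ∀ p : ℕ, p.Prime → 3 < p →
    ((p % 24 = 1 ∨ p % 24 = 7) →
      (∃ x y : ℤ, (p : ℤ) = x ^ 2 + 6 * y ^ 2) ∧
      ∀ x y : ℤ, (p : ℤ) = x ^ 2 + 6 * y ^ 2 → CongrModSq p (Z p 32) (4 * x ^ 2 - 2 * p)) ∧
    ((p % 24 = 5 ∨ p % 24 = 11) →
      (∃ x y : ℤ, (p : ℤ) = 2 * x ^ 2 + 3 * y ^ 2) ∧
      ∀ x y : ℤ, (p : ℤ) = 2 * x ^ 2 + 3 * y ^ 2 → CongrModSq p (Z p 32) (8 * x ^ 2 - 2 * p)) ∧
    ((p % 24 = 13 ∨ p % 24 = 17 ∨ p % 24 = 19 ∨ p % 24 = 23) → CongrModSq p (Z p 32) 0) := by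
  intro p hp h3
  refine ⟨fun h => ⟨Pool.Agent.Lib.Z32.rep_a hp h, fun x y hxy => ?_⟩,
    fun h => ⟨Pool.Agent.Lib.Z32.rep_b hp h, fun x y hxy => ?_⟩, fun h => ?_⟩
  · rw [Z_eq]
    exact conv (Pool.Agent.Lib.Z32.final_a hp h3 hxy)
  · rw [Z_eq]
    exact conv (Pool.Agent.Lib.Z32.final_b hp h3 hxy)
  · rw [Z_eq]
    exact conv (Pool.Agent.Lib.Z32.final_c hp h3 h)

end Pool.Agent.Results.MP_ad286f_nt.FullAnswer
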